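import Pool.Agent.H81.SQ.Targets

/-!
# DISC: a finite net of the unit disc
-/

namespace Pool.Agent.H24.SQ

open Pool.Agent.H81.SQ

/-- A finite net of the unit disc. -/
theorem disc : T_DISC := by
  intro ε hε
  obtain ⟨t, ht, htf, hcov⟩ := IsCompact.finite_cover_balls (isCompact_closedBall (0 : ℂ) 1) hε
  let s := htf.toFinset
  let e := s.equivFin
  refine ⟨s.card, fun i => ((e.symm i : s) : ℂ), ?_, ?_⟩
  · intro i
    have h1 : ((e.symm i : s) : ℂ) ∈ t := by
      have := (e.symm i).2
      exact htf.mem_toFinset.mp this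
    have h2 := ht h1
    simpa using h2
  · intro z hz
    have h1 : z ∈ Metric.closedBall (0 : ℂ) 1 := by simpa using hz
    have h2 := hcov h1
    simp only [Set.mem_iUnion] at h2
    obtain ⟨x, hx, hzx⟩ := h2
    refine ⟨e ⟨x, htf.mem_toFinset.mpr hx⟩, ?_⟩
    simp only [Equiv.symm_apply_apply]
    rw [← dist_eq_norm]
    exact le_of_lt (Metric.mem_ball.mp hzx)

end Pool.Agent.H24.SQ
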