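import Pool.Agent.H81.SQ.Targets

/-!
# INC: energy increment from the inverse theorem
-/

namespace Pool.Agent.H24.SQ

open Pool.Agent.H81.SQ Pool.Agent.H36Sq Finset
open scoped BigOperators ComplexConjugate

section

set_option linter.unusedSectionVars false

variable {G : Type} [AddCommGroup G] [Module (ZMod 2) G] [Fintype G]

/-- The refined factor. -/
noncomputable def refd (B : Fac G) (m : ℕ) (a b d : G → Fin m)
    (e : Fin B.K × Fin m × Fin m × Fin m ≃ Fin (B.K * m ^ 3))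
    (M : LinearMap.BilinForm (ZMod 2) G) : Fac G where
  K := B.K * m ^ 3
  k := B.k + 1
  lam := fun x => e (B.lam x, a x, b x, d x)
  M := Fin.cons M B.M

lemma refd_code (B : Fac G) (m : ℕ) (a b d : G → Fin m)
    (e : Fin B.K × Fin m × Fin m × Fin m ≃ Fin (B.K * m ^ 3))
    (M : LinearMap.BilinForm (ZMod 2) G) (x y x' y' : G)
    (h : (refd B m a b d e M).code x y = (refd B m a b d e M).code x' y') :
    B.code x y = B.code x' y' ∧ a x = a x' ∧ b y = b y' ∧ d (x + y) = d (x' + y') ∧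
      M x y = M x' y' := by
  unfold Fac.code refd at h
  simp only [Prod.mk.injEq] at h
  obtain ⟨h1, h2, h3, h4⟩ := h
  have e1 := e.injective h1
  have e2 := e.injective h2
  have e3 := e.injective h3
  simp only [Prod.mk.injEq] at e1 e2 e3
  have h5 := congrFun h4 0
  have h6 : ∀ i : Fin B.k, B.M i x y = B.M i x' y' := fun i => congrFun h4 i.succ
  refine ⟨?_, e1.2.1, e2.2.2.1, e3.2.2.2, h5⟩
  unfold Fac.code
  simp only [Prod.mk.injEq]
  exact ⟨e1.1, e2.1, e3.1, funext h6⟩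

lemma expect_const2 (c : ℝ) : 𝔼 _x : G, 𝔼 _y : G, c = c := by
  rw [Fintype.expect_const, Fintype.expect_const]

lemma expect2_le {f g : G → G → ℝ} (h : ∀ x y, f x y ≤ g x y) :
    𝔼 x : G, 𝔼 y : G, f x y ≤ 𝔼 x : G, 𝔼 y : G, g x y :=
  expect_le_expect fun x _ => expect_le_expect fun y _ => h x y

lemma norm_expect2_le (f : G → G → ℂ) :
    ‖𝔼 x : G, 𝔼 y : G, f x y‖ ≤ 𝔼 x : G, 𝔼 y : G, ‖f x y‖ :=
  (RCLike.norm_expect_le (K := ℂ)).trans
    (expect_le_expect fun x _ => RCLike.norm_expect_le (K := ℂ))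

lemma expect2_sub (f g : G → G → ℂ) :
    𝔼 x : G, 𝔼 y : G, (f x y - g x y) = (𝔼 x : G, 𝔼 y : G, f x y) - 𝔼 x : G, 𝔼 y : G, g x y := by
  simp only [expect_sub_distrib]

lemma expect2_sub_real (f g : G → G → ℝ) :
    𝔼 x : G, 𝔼 y : G, (f x y - g x y) = (𝔼 x : G, 𝔼 y : G, f x y) - 𝔼 x : G, 𝔼 y : G, g x y := by
  simp only [expect_sub_distrib]

/-- Complex test functions. -/
lemma ce_complex (h2 : T_CEF) (B : Fac G) (f : G → G → ℝ) (hf : ∀ x y, 0 ≤ f x y ∧ f x y ≤ 1)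
    (φ : G → G → ℂ) (hφ : ∀ x y x' y', B.code x y = B.code x' y' → φ x y = φ x' y') :
    𝔼 x : G, 𝔼 y : G, (f x y : ℂ) * φ x y = 𝔼 x : G, 𝔼 y : G, (B.ce f x y : ℂ) * φ x y := by
  have h3 := (h2 G B B f (fun x y x' y' h => h) hf).2.2.2.1
  apply Complex.ext
  · rw [Complex.re_expect, Complex.re_expect]
    simp only [Complex.re_expect, Complex.re_ofReal_mul]
    exact h3 (fun x y => (φ x y).re) (fun x y x' y' h => by simp only [hφ x y x' y' h])
  · rw [Complex.im_expect, Complex.im_expect]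
    simp only [Complex.im_expect, Complex.im_ofReal_mul]
    exact h3 (fun x y => (φ x y).im) (fun x y x' y' h => by simp only [hφ x y x' y' h])

lemma sg_norm (a : ZMod 2) : ‖((sg a : ℝ) : ℂ)‖ = 1 := by
  rcases zmod2_cases a with h | h <;> subst h <;> simp [sg]

lemma tele (u v w a b d s : ℂ) (ε : ℝ) (hv : ‖v‖ ≤ 1) (hw : ‖w‖ ≤ 1) (ha : ‖a‖ ≤ 1)
    (hb : ‖b‖ ≤ 1) (hs : ‖s‖ = 1) (h1 : ‖u - a‖ ≤ ε) (h2 : ‖v - b‖ ≤ ε) (h3 : ‖w - d‖ ≤ ε) :
    ‖u * v * w * s - a * b * d * s‖ ≤ 3 * ε := by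
  have h4 : u * v * w * s - a * b * d * s
      = ((u - a) * (v * w) + (v - b) * (a * w) + (w - d) * (a * b)) * s := by ring
  rw [h4, norm_mul, hs, mul_one]
  have k1 : ‖(u - a) * (v * w)‖ ≤ ε := by
    rw [norm_mul, norm_mul]
    have : ‖v‖ * ‖w‖ ≤ 1 := mul_le_one₀ hv (norm_nonneg _) hw
    calc ‖u - a‖ * (‖v‖ * ‖w‖) ≤ ‖u - a‖ * 1 := mul_le_mul_of_nonneg_left this (norm_nonneg _)
      _ ≤ ε := by rw [mul_one]; exact h1
  have k2 : ‖(v - b) * (a * w)‖ ≤ ε := by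
    rw [norm_mul, norm_mul]
    have : ‖a‖ * ‖w‖ ≤ 1 := mul_le_one₀ ha (norm_nonneg _) hw
    calc ‖v - b‖ * (‖a‖ * ‖w‖) ≤ ‖v - b‖ * 1 := mul_le_mul_of_nonneg_left this (norm_nonneg _)
      _ ≤ ε := by rw [mul_one]; exact h2
  have k3 : ‖(w - d) * (a * b)‖ ≤ ε := by
    rw [norm_mul, norm_mul]
    have : ‖a‖ * ‖b‖ ≤ 1 := mul_le_one₀ ha (norm_nonneg _) hb
    calc ‖w - d‖ * (‖a‖ * ‖b‖) ≤ ‖w - d‖ * 1 := mul_le_mul_of_nonneg_left this (norm_nonneg _)
      _ ≤ ε := by rw [mul_one]; exact h3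
  calc ‖(u - a) * (v * w) + (v - b) * (a * w) + (w - d) * (a * b)‖
      ≤ ‖(u - a) * (v * w) + (v - b) * (a * w)‖ + ‖(w - d) * (a * b)‖ := norm_add_le _ _
    _ ≤ ‖(u - a) * (v * w)‖ + ‖(v - b) * (a * w)‖ + ‖(w - d) * (a * b)‖ := by
        gcongr; exact norm_add_le _ _
    _ ≤ 3 * ε := by linarith

end

/-- Energy increment from the inverse theorem. -/
theorem inc (h1 : T_IT) (h2 : T_CEF) (h3 : T_DISC) : T_INC := by
  intro δ hδ
  obtain ⟨c, hc, hIT⟩ := h1 δ hδ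
  obtain ⟨m, t, ht, hnet⟩ := h3 (c / 6) (by positivity)
  refine ⟨m ^ 3, (c / 2) ^ 2, by positivity, ?_⟩
  intro G _ _ _ B f hf hU
  have hce := (h2 G B B f (fun x y x' y' h => h) hf).1
  have hgb : ∀ x y, ‖((f x y - B.ce f x y : ℝ) : ℂ)‖ ≤ 1 := by
    intro x y
    rw [Complex.norm_real, Real.norm_eq_abs, abs_le]
    have k1 := hf x y
    have k2 := hce x y
    constructor <;> linarith
  obtain ⟨u, v, w, M, hu, hv, hw, hcorr⟩ := hIT G _ hgb hU
  choose a ha using fun x => hnet (u x) (hu x)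
  choose b hb using fun x => hnet (v x) (hv x)
  choose d hd using fun x => hnet (w x) (hw x)
  let e : Fin B.K × Fin m × Fin m × Fin m ≃ Fin (B.K * m ^ 3) :=
    Fintype.equivFinOfCardEq (by simp only [Fintype.card_prod, Fintype.card_fin]; ring)
  let B' := refd B m a b d e M
  have hRef : B'.Ref B := fun x y x' y' h => (refd_code B m a b d e M x y x' y' h).1
  have hcef := h2 G B B' f hRef hf
  let φ : G → G → ℂ := fun x y => t (a x) * t (b y) * t (d (x + y)) * ((sg (M x y) : ℝ) : ℂ)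
  have hφ1 : ∀ x y, ‖φ x y‖ ≤ 1 := by
    intro x y
    simp only [φ, norm_mul, sg_norm, mul_one]
    exact mul_le_one₀ (mul_le_one₀ (ht _) (norm_nonneg _) (ht _)) (norm_nonneg _) (ht _)
  have hφc : ∀ x y x' y', B'.code x y = B'.code x' y' → φ x y = φ x' y' := by
    intro x y x' y' h
    obtain ⟨-, e1, e2, e3, e4⟩ := refd_code B m a b d e M x y x' y' h
    simp only [φ, e1, e2, e3, e4]
  have hφB : 𝔼 x : G, 𝔼 y : G, ((f x y - B.ce f x y : ℝ) : ℂ) * φ x y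
      = 𝔼 x : G, 𝔼 y : G, ((B'.ce f x y - B.ce f x y : ℝ) : ℂ) * φ x y := by
    have k1 := ce_complex h2 B' f hf φ hφc
    have k2 : ∀ g : G → G → ℝ, 𝔼 x : G, 𝔼 y : G, ((g x y - B.ce f x y : ℝ) : ℂ) * φ x y
        = (𝔼 x : G, 𝔼 y : G, (g x y : ℂ) * φ x y)
          - 𝔼 x : G, 𝔼 y : G, (B.ce f x y : ℂ) * φ x y := by
      intro g
      rw [← expect2_sub]
      refine expect_congr rfl fun x _ => expect_congr rfl fun y _ => ?_
      push_cast
      ring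
    rw [k2, k2, k1]
  have happ : ‖(𝔼 x : G, 𝔼 y : G, ((f x y - B.ce f x y : ℝ) : ℂ) * u x * v y * w (x + y)
      * ((sg (M x y) : ℝ) : ℂ)) - 𝔼 x : G, 𝔼 y : G, ((f x y - B.ce f x y : ℝ) : ℂ) * φ x y‖
      ≤ c / 2 := by
    rw [← expect2_sub]
    refine (norm_expect2_le _).trans ?_
    rw [← expect_const2 (G := G) (c / 2)]
    refine expect2_le fun x y => ?_
    have k1 : ((f x y - B.ce f x y : ℝ) : ℂ) * u x * v y * w (x + y) * ((sg (M x y) : ℝ) : ℂ)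
        - ((f x y - B.ce f x y : ℝ) : ℂ) * φ x y
        = ((f x y - B.ce f x y : ℝ) : ℂ) * (u x * v y * w (x + y) * ((sg (M x y) : ℝ) : ℂ)
          - t (a x) * t (b y) * t (d (x + y)) * ((sg (M x y) : ℝ) : ℂ)) := by
      simp only [φ]
      ring
    rw [k1, norm_mul]
    have k2 := tele (u x) (v y) (w (x + y)) (t (a x)) (t (b y)) (t (d (x + y)))
      ((sg (M x y) : ℝ) : ℂ) (c / 6) (hv _) (hw _) (ht _) (ht _) (sg_norm _) (ha x) (hb y)
      (hd (x + y))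
    calc _ ≤ 1 * ‖u x * v y * w (x + y) * ((sg (M x y) : ℝ) : ℂ)
          - t (a x) * t (b y) * t (d (x + y)) * ((sg (M x y) : ℝ) : ℂ)‖ :=
          mul_le_mul_of_nonneg_right (hgb x y) (norm_nonneg _)
      _ ≤ c / 2 := by rw [one_mul]; linarith
  have hlow : c / 2 ≤ ‖𝔼 x : G, 𝔼 y : G, ((B'.ce f x y - B.ce f x y : ℝ) : ℂ) * φ x y‖ := by
    rw [← hφB]
    have k1 := norm_sub_norm_le
      (𝔼 x : G, 𝔼 y : G, ((f x y - B.ce f x y : ℝ) : ℂ) * u x * v y * w (x + y)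
      * ((sg (M x y) : ℝ) : ℂ)) (𝔼 x : G, 𝔼 y : G, ((f x y - B.ce f x y : ℝ) : ℂ) * φ x y)
    linarith
  have hlow2 : c / 2 ≤ 𝔼 x : G, 𝔼 y : G, |B'.ce f x y - B.ce f x y| := by
    refine hlow.trans ((norm_expect2_le _).trans (expect2_le fun x y => ?_))
    rw [norm_mul, Complex.norm_real, Real.norm_eq_abs]
    calc _ ≤ |B'.ce f x y - B.ce f x y| * 1 :=
          mul_le_mul_of_nonneg_left (hφ1 x y) (abs_nonneg _)
      _ = _ := mul_one _
  have hsq : (c / 2) ^ 2 ≤ 𝔼 x : G, 𝔼 y : G, (B'.ce f x y - B.ce f x y) ^ 2 := by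
    have k1 : 𝔼 x : G, 𝔼 y : G, (c * |B'.ce f x y - B.ce f x y| - (c / 2) ^ 2)
        ≤ 𝔼 x : G, 𝔼 y : G, (B'.ce f x y - B.ce f x y) ^ 2 := by
      refine expect2_le fun x y => ?_
      have := sq_nonneg (|B'.ce f x y - B.ce f x y| - c / 2)
      have k2 := sq_abs (B'.ce f x y - B.ce f x y)
      nlinarith
    rw [expect2_sub_real, expect_const2] at k1
    have k3 : 𝔼 x : G, 𝔼 y : G, c * |B'.ce f x y - B.ce f x y|
        = c * 𝔼 x : G, 𝔼 y : G, |B'.ce f x y - B.ce f x y| := by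
      rw [mul_expect]
      refine expect_congr rfl fun x _ => ?_
      rw [mul_expect]
    rw [k3] at k1
    nlinarith
  refine ⟨B', hRef, rfl, le_refl _, ?_⟩
  have := hcef.2.2.2.2.1
  linarith

end Pool.Agent.H24.SQ
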