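import Pool.Agent.H81.SQ.Targets

/-!
# WREG: weak regularity
-/

namespace Pool.Agent.H24.SQ

open Pool.Agent.H81.SQ Finset
open scoped BigOperators

/-- Weak regularity. -/
theorem wreg (h1 : T_INC) (h2 : T_CEF) : T_WREG := by
  intro δ hδ
  obtain ⟨K₀, c, hc, hinc⟩ := h1 δ hδ
  have claim : ∀ j n : ℕ, ∃ n' : ℕ,
      ∀ (G : Type) [AddCommGroup G] [Module (ZMod 2) G] [Fintype G] (B : Fac G) (f : G → G → ℝ),
      (∀ x y, 0 ≤ f x y ∧ f x y ≤ 1) → B.cx ≤ n → 1 - j * c ≤ B.en f →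
      ∃ B' : Fac G, B'.Ref B ∧ B'.cx ≤ n' ∧
        U8 (fun x y => ((f x y - B'.ce f x y : ℝ) : ℂ)) ≤ δ := by
    intro j
    induction j with
    | zero =>
      intro n
      refine ⟨n, ?_⟩
      intro G _ _ _ B f hf hB hen
      refine ⟨B, fun x y x' y' h => h, hB, ?_⟩
      by_contra hcon
      push Not at hcon
      obtain ⟨B', hRef, -, -, hen'⟩ := hinc G B f hf hcon.le
      have h3 := (h2 G B' B' f (fun x y x' y' h => h) hf).2.2.2.2.2.2
      simp only [Nat.cast_zero, zero_mul, sub_zero] at hen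
      linarith
    | succ j ih =>
      intro n
      obtain ⟨n', hn'⟩ := ih (n * K₀ + n + 1)
      refine ⟨max n n', ?_⟩
      intro G _ _ _ B f hf hB hen
      by_cases hU : U8 (fun x y => ((f x y - B.ce f x y : ℝ) : ℂ)) ≤ δ
      · exact ⟨B, fun x y x' y' h => h, hB.trans (le_max_left _ _), hU⟩
      · push Not at hU
        obtain ⟨B', hRef, hk, hK, hen'⟩ := hinc G B f hf hU.le
        have hcx : B'.cx ≤ n * K₀ + n + 1 := by
          unfold Fac.cx at hB ⊢
          have h4 : B.K * K₀ ≤ n * K₀ := Nat.mul_le_mul_right _ (by omega)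
          omega
        have hen1 : 1 - j * c ≤ B'.en f := by
          push_cast at hen
          linarith
        obtain ⟨B'', hRef', hcx', hU'⟩ := hn' G B' f hf hcx hen1
        exact ⟨B'', fun x y x' y' h => hRef _ _ _ _ (hRef' _ _ _ _ h),
          hcx'.trans (le_max_right _ _), hU'⟩
  intro n
  obtain ⟨j, hj⟩ := exists_nat_ge (1 / c)
  obtain ⟨n', hn'⟩ := claim j n
  refine ⟨n', ?_⟩
  intro G _ _ _ B f hf hB
  refine hn' G B f hf hB ?_
  have h3 := (h2 G B B f (fun x y x' y' h => h) hf).2.2.2.2.2.1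
  have h4 : 1 ≤ j * c := by
    rw [div_le_iff₀ hc] at hj
    exact hj
  linarith

end Pool.Agent.H24.SQ
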